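import Pool.Agent.R145.Cir.Ham2

set_option autoImplicit false

/-! # Two bridges between two disjoint circuits, with exact lengths -/

namespace Pool.Agent.N393.Nine

open Pool.Agent.R145.Cir

variable {V : Type} {G : SimpleGraph V}

/-- two disjoint paths between disjoint circuits give a circuit -/
theorem twoBrS {Z Z' : List V} (hZ : Ci G Z) (hZ' : Ci G Z') (hd : ∀ x ∈ Z, x ∉ Z')
    {a b a' b' : V} {I I' : List V} (h : Br G Z Z' a b I) (h' : Br G Z Z' a' b' I')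
    (hII : ∀ x ∈ [a] ++ (I ++ [b]), x ∉ [a'] ++ (I' ++ [b'])) {i j i' j' : ℕ}
    (hi : Z[i]? = some a) (hi' : Z[i']? = some a') (hj : Z'[j]? = some b)
    (hj' : Z'[j']? = some b') (n m : ℕ) (hn : Cd Z.length i i' n) (hm : Cd Z'.length j j' m) :
    ∃ l, Ci G l ∧ n + m + 4 + I.length + I'.length ≤ l.length := by
  unfold Cd at hn hm
  obtain ⟨A, hA, pA, mA⟩ := arcs hZ hi hi' (by omega) n (by omega)
  obtain ⟨B, hB, pB, mB⟩ := arcs hZ' hj' hj (by omega) m (by omega)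
  -- the circuit: a A a' I' b' B b I⁻¹
  have q := h.pa
  have q' := h'.pa
  have e1 : [a] ++ (A ++ [a']) = ([a] ++ A) ++ [a'] := by simp
  have e2 : [b'] ++ (B ++ [b]) = ([b'] ++ B) ++ [b] := by simp
  refine ⟨([a] ++ (A ++ [a'])) ++ (I' ++ (([b'] ++ (B ++ [b])) ++ I.reverse)), ⟨?_, ?_, ?_⟩, ?_⟩
  · rw [pa_append (l := [a]) (m := I ++ [b]), pa_append (l := I)] at q
    rw [pa_append (l := [a']) (m := I' ++ [b']), pa_append (l := I')] at q'
    obtain ⟨_, ⟨pI, _, dI, jI⟩, daI, jaI⟩ := q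
    obtain ⟨_, ⟨pI', _, dI', jI'⟩, daI', jaI'⟩ := q'
    rw [pa_append (l := [a] ++ (A ++ [a'])), pa_append (l := I'),
      pa_append (l := [b'] ++ (B ++ [b]))]
    have mZ : ∀ x ∈ [a] ++ (A ++ [a']), x ∈ Z := by
      intro x hx
      simp only [List.mem_append, List.mem_cons, List.mem_nil_iff, or_false] at hx
      rcases hx with rfl | hx | rfl
      · exact h.ha
      · exact mA x hx
      · exact h'.ha
    have mZ' : ∀ x ∈ [b'] ++ (B ++ [b]), x ∈ Z' := by
      intro x hx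
      simp only [List.mem_append, List.mem_cons, List.mem_nil_iff, or_false] at hx
      rcases hx with rfl | hx | rfl
      · exact h'.hb
      · exact mB x hx
      · exact h.hb
    refine ⟨pA, ⟨pI', ⟨pB, pa_reverse.mpr pI, ?_, ?_⟩, ?_, ?_⟩, ?_, ?_⟩
    · intro x hx hx2
      exact h.z' x (List.mem_reverse.mp hx2) (mZ' x hx)
    · rw [← List.append_assoc, jo_append_left (by simp)]
      have : ([b] : List V) = [b].reverse := rfl
      rw [this, jo_reverse]
      exact jI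
    · intro x hx hx2
      rw [List.mem_append, List.mem_reverse] at hx2
      rcases hx2 with hx2 | hx2
      · exact h'.z' x hx (mZ' x hx2)
      · exact hII x (by simp [hx2]) (by simp [hx])
    · rw [List.append_assoc, jo_append_right (by simp)]
      exact jI'
    · intro x hx hx2
      rw [List.mem_append, List.mem_append, List.mem_reverse] at hx2
      rcases hx2 with hx2 | hx2 | hx2
      · exact h'.z x hx2 (mZ x hx)
      · exact hd x (mZ x hx) (mZ' x hx2)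
      · exact h.z x hx2 (mZ x hx)
    · rw [e1, jo_append_left (by simp)]
      rcases I' with _ | ⟨c, I'⟩
      · rw [List.nil_append, List.append_assoc, jo_append_right (by simp)]
        simpa using jaI'
      · rw [jo_append_right (by simp)]
        rw [jo_append_right (by simp)] at jaI'
        exact jaI'
  · simp only [List.length_append, List.length_cons, List.length_nil]; omega
  · rw [pa_append (l := [a]) (m := I ++ [b])] at q
    obtain ⟨_, _, _, jaI⟩ := q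
    rw [jo_append_right (m := [a] ++ (A ++ [a'])) (by simp), jo_append_right (m := [a]) (by simp)]
    rcases I with _ | ⟨c, I⟩
    · rw [List.reverse_nil, List.append_nil, ← List.append_assoc, e2, ← List.append_assoc,
        jo_append_left (by simp)]
      rw [List.nil_append] at jaI
      rw [jo_single] at jaI ⊢
      exact jaI.symm
    · rw [← List.append_assoc, ← List.append_assoc, jo_append_left (by simp)]
      have : ([a] : List V) = [a].reverse := rfl
      rw [this, jo_reverse]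
      rw [jo_append_right (by simp)] at jaI
      exact jaI
  · simp only [List.length_append, List.length_cons, List.length_nil, List.length_reverse]
    omega

/-- neighbouring positions on the circle of length `z` -/
def Nb (z p p' : ℕ) : Prop := p = p' + 1 ∨ p' = p + 1 ∨ p + 1 = p' + z ∨ p' + 1 = p + z

/-- positions at distance at least two -/
def D2 (z p p' : ℕ) : Prop := p ≠ p' ∧ ¬ Nb z p p'

/-- three positions on each circle -/
structure Three (G : SimpleGraph V) (Z Z' : List V) (a b : Fin 3 → V) (I : Fin 3 → List V)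
    (p q : Fin 3 → ℕ) : Prop where
  br : ∀ i, Br G Z Z' (a i) (b i) (I i)
  dis : ∀ i j, i ≠ j → ∀ x ∈ [a i] ++ (I i ++ [b i]), x ∉ [a j] ++ (I j ++ [b j])
  hp : ∀ i, Z[p i]? = some (a i)
  hq : ∀ i, Z'[q i]? = some (b i)

theorem Three.pne {Z Z' : List V} {a b : Fin 3 → V} {I : Fin 3 → List V} {p q : Fin 3 → ℕ}
    (h : Three G Z Z' a b I p q) (i j : Fin 3) (hij : i ≠ j) : p i ≠ p j := by
  intro e
  have h3 := h.hp i
  rw [e, h.hp j] at h3
  exact h.dis i j hij (a i) (by simp) (by rw [← Option.some.inj h3]; simp)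

theorem Three.qne {Z Z' : List V} {a b : Fin 3 → V} {I : Fin 3 → List V} {p q : Fin 3 → ℕ}
    (h : Three G Z Z' a b I p q) (i j : Fin 3) (hij : i ≠ j) : q i ≠ q j := by
  intro e
  have h3 := h.hq i
  rw [e, h.hq j] at h3
  exact h.dis i j hij (b i) (by simp) (by rw [← Option.some.inj h3]; simp)

theorem Three.len {Z Z' : List V} {a b : Fin 3 → V} {I : Fin 3 → List V} {p q : Fin 3 → ℕ}
    (h : Three G Z Z' a b I p q) (hZ : Ci G Z) (hZ' : Ci G Z') (hd : ∀ x ∈ Z, x ∉ Z') {c : ℕ}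
    (hc : ∀ l, Ci G l → l.length ≤ c) (i j : Fin 3) (hij : i ≠ j) :
    ∃ n m, Z.length ≤ 2 * (n + 1) ∧ (Nb Z.length (p i) (p j) → n + 2 = Z.length) ∧
      Cd Z.length (p i) (p j) n ∧ Cd Z'.length (q i) (q j) m ∧
      Z'.length ≤ 2 * (m + 1) ∧ (Nb Z'.length (q i) (q j) → m + 2 = Z'.length) ∧
      n + m + 4 + (I i).length + (I j).length ≤ c := by
  obtain ⟨n, c1, d1, e1⟩ := ex_n (h.pne i j hij) (idx_lt (h.hp i)) (idx_lt (h.hp j))
  obtain ⟨m, c2, d2, e2⟩ := ex_n (h.qne i j hij) (idx_lt (h.hq i)) (idx_lt (h.hq j))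
  obtain ⟨l, hl, hl2⟩ := twoBrS hZ hZ' hd (h.br i) (h.br j) (h.dis i j hij) (h.hp i) (h.hp j)
    (h.hq i) (h.hq j) n m c1 c2
  exact ⟨n, m, d1, e1, c1, c2, d2, e2, hl2.trans (hc l hl)⟩

/-- positions -/
theorem exists_three {Z Z' : List V} {a b : Fin 3 → V} {I : Fin 3 → List V}
    (h1 : ∀ i, Br G Z Z' (a i) (b i) (I i))
    (h2 : ∀ i j, i ≠ j → ∀ x ∈ [a i] ++ (I i ++ [b i]), x ∉ [a j] ++ (I j ++ [b j])) :
    ∃ p q, Three G Z Z' a b I p q := by
  have ha : ∀ i, ∃ p : ℕ, Z[p]? = some (a i) := fun i => ix (h1 i).ha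
  have hb : ∀ i, ∃ p : ℕ, Z'[p]? = some (b i) := fun i => ix (h1 i).hb
  choose p hp using ha
  choose q hq using hb
  exact ⟨p, q, h1, h2, hp, hq⟩

theorem pig5 : ∀ p0 < 5, ∀ p1 < 5, ∀ p2 < 5, p0 ≠ p1 → p1 ≠ p2 → p0 ≠ p2 →
    Nb 5 p0 p1 ∨ Nb 5 p1 p2 ∨ Nb 5 p0 p2 := by
  intro p0 h0 p1 h1 p2 h2 e1 e2 e3
  unfold Nb
  omega

theorem pig6 : ∀ p0 < 6, ∀ p1 < 6, ∀ p2 < 6, p0 ≠ p1 → p1 ≠ p2 → p0 ≠ p2 →
    Nb 6 p0 p1 ∨ Nb 6 p1 p2 ∨ Nb 6 p0 p2 ∨
      (¬ (p0 = p1 + 3 ∨ p1 = p0 + 3) ∧ ¬ (p1 = p2 + 3 ∨ p2 = p1 + 3) ∧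
        ¬ (p0 = p2 + 3 ∨ p2 = p0 + 3)) := by
  intro p0 h0 p1 h1 p2 h2 e1 e2 e3
  unfold Nb
  omega

theorem opp5 : ∀ p < 5, ∀ p1 < 5, ∀ p2 < 5, p1 ≠ p2 → D2 5 p p1 → D2 5 p p2 → Nb 5 p1 p2 := by
  intro p h0 p1 h1 p2 h2 e1 e2 e3
  unfold D2 Nb at *
  omega

/-- two of the three paths whose ends are neighbours on the second pentagon -/
theorem Three.pig {Z Z' : List V} {a b : Fin 3 → V} {I : Fin 3 → List V} {p q : Fin 3 → ℕ}
    (h : Three G Z Z' a b I p q) (h5 : Z'.length = 5) :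
    ∃ i j : Fin 3, i ≠ j ∧ Nb 5 (q i) (q j) := by
  have l0 := idx_lt (h.hq 0)
  have l1 := idx_lt (h.hq 1)
  have l2 := idx_lt (h.hq 2)
  rw [h5] at l0 l1 l2
  rcases pig5 _ l0 _ l1 _ l2 (h.qne 0 1 (by decide)) (h.qne 1 2 (by decide))
    (h.qne 0 2 (by decide)) with h | h | h
  · exact ⟨0, 1, by decide, h⟩
  · exact ⟨1, 2, by decide, h⟩
  · exact ⟨0, 2, by decide, h⟩

theorem Three.pigL {Z Z' : List V} {a b : Fin 3 → V} {I : Fin 3 → List V} {p q : Fin 3 → ℕ}
    (h : Three G Z Z' a b I p q) (h5 : Z.length = 5) :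
    ∃ i j : Fin 3, i ≠ j ∧ Nb 5 (p i) (p j) := by
  have l0 := idx_lt (h.hp 0)
  have l1 := idx_lt (h.hp 1)
  have l2 := idx_lt (h.hp 2)
  rw [h5] at l0 l1 l2
  rcases pig5 _ l0 _ l1 _ l2 (h.pne 0 1 (by decide)) (h.pne 1 2 (by decide))
    (h.pne 0 2 (by decide)) with h | h | h
  · exact ⟨0, 1, by decide, h⟩
  · exact ⟨1, 2, by decide, h⟩
  · exact ⟨0, 2, by decide, h⟩

/-- if there are no circuits longer than nine, then both circuits are pentagons -/
theorem Three.five {Z Z' : List V} {a b : Fin 3 → V} {I : Fin 3 → List V} {p q : Fin 3 → ℕ}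
    (h : Three G Z Z' a b I p q) (hZ : Ci G Z) (hZ' : Ci G Z') (hd : ∀ x ∈ Z, x ∉ Z')
    (hc : ∀ l, Ci G l → l.length ≤ 9) (h5 : 5 ≤ Z.length) (h5' : 5 ≤ Z'.length)
    (ho : Odd Z.length) (ho' : Odd Z'.length) :
    Z.length = 5 ∧ Z'.length = 5 := by
  obtain ⟨x, hx⟩ := ho
  obtain ⟨y, hy⟩ := ho'
  constructor
  · by_contra hne
    have key : ∃ i j : Fin 3, i ≠ j ∧ (Z'.length = 5 → Nb 5 (q i) (q j)) := by
      by_cases h5'' : Z'.length = 5
      · obtain ⟨i, j, hij, hn⟩ := h.pig h5''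
        exact ⟨i, j, hij, fun _ => hn⟩
      · exact ⟨0, 1, by decide, fun h => absurd h h5''⟩
    obtain ⟨i, j, hij, hn⟩ := key
    obtain ⟨n, m, a, b, _, _, c, d, e⟩ := h.len hZ hZ' hd hc i j hij
    by_cases h5'' : Z'.length = 5
    · have := hn h5''
      rw [h5''] at d
      have := d this
      omega
    · omega
  · by_contra hne
    have key : ∃ i j : Fin 3, i ≠ j ∧ (Z.length = 5 → Nb 5 (p i) (p j)) := by
      by_cases h5'' : Z.length = 5
      · obtain ⟨i, j, hij, hn⟩ := h.pigL h5''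
        exact ⟨i, j, hij, fun _ => hn⟩
      · exact ⟨0, 1, by decide, fun h => absurd h h5''⟩
    obtain ⟨i, j, hij, hn⟩ := key
    obtain ⟨n, m, a, b, _, _, c, d, e⟩ := h.len hZ hZ' hd hc i j hij
    by_cases h5'' : Z.length = 5
    · have := hn h5''
      rw [h5''] at b
      have := b this
      omega
    · omega

/-- no two paths have neighbouring ends on both pentagons -/
theorem Three.F {Z Z' : List V} {a b : Fin 3 → V} {I : Fin 3 → List V} {p q : Fin 3 → ℕ}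
    (h : Three G Z Z' a b I p q) (hZ : Ci G Z) (hZ' : Ci G Z') (hd : ∀ x ∈ Z, x ∉ Z')
    (hc : ∀ l, Ci G l → l.length ≤ 9) (h5 : Z.length = 5) (h5' : Z'.length = 5) (i j : Fin 3)
    (hij : i ≠ j) : ¬ (Nb 5 (p i) (p j) ∧ Nb 5 (q i) (q j)) := by
  rintro ⟨u1, u2⟩
  obtain ⟨n, m, _, b, _, _, _, d, e⟩ := h.len hZ hZ' hd hc i j hij
  rw [h5] at b
  rw [h5'] at d
  have := b u1
  have := d u2
  omega

theorem Three.nil {Z Z' : List V} {a b : Fin 3 → V} {I : Fin 3 → List V} {p q : Fin 3 → ℕ}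
    (h : Three G Z Z' a b I p q) (hZ : Ci G Z) (hZ' : Ci G Z') (hd : ∀ x ∈ Z, x ∉ Z')
    (hc : ∀ l, Ci G l → l.length ≤ 9) (h5 : Z.length = 5) (h5' : Z'.length = 5) (i : Fin 3) :
    I i = [] := by
  have key : ∀ i j : Fin 3, i ≠ j → Nb 5 (p i) (p j) ∨ Nb 5 (q i) (q j) → I i = [] ∧ I j = [] := by
    intro i j hij hor
    obtain ⟨n, m, a, b, _, _, c, d, e⟩ := h.len hZ hZ' hd hc i j hij
    rw [h5] at a b
    rw [h5'] at c d
    rw [← List.length_eq_zero_iff, ← List.length_eq_zero_iff]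
    rcases hor with u | u
    · have := b u
      omega
    · have := d u
      omega
  obtain ⟨i1, j1, n1, u1⟩ := h.pig h5'
  obtain ⟨i2, j2, n2, u2⟩ := h.pigL h5
  have k1 := key i1 j1 n1 (Or.inr u1)
  have k2 := key i2 j2 n2 (Or.inl u2)
  by_contra hne
  have e1 : i ≠ i1 := fun e => hne (e ▸ k1.1)
  have e2 : i ≠ j1 := fun e => hne (e ▸ k1.2)
  have e3 : i ≠ i2 := fun e => hne (e ▸ k2.1)
  have e4 : i ≠ j2 := fun e => hne (e ▸ k2.2)
  have hsymm : ∀ {z a b}, Nb z a b → Nb z b a := by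
    intro z a b h
    unfold Nb at *
    omega
  have hpair : (i1 = i2 ∧ j1 = j2) ∨ (i1 = j2 ∧ j1 = i2) := by
    clear hne u1 u2 k1 k2 key h hZ hZ' hd hc h5 h5' hsymm
    omega
  rcases hpair with ⟨rfl, rfl⟩ | ⟨rfl, rfl⟩
  · exact h.F hZ hZ' hd hc h5 h5' _ _ n1 ⟨u2, u1⟩
  · exact h.F hZ hZ' hd hc h5 h5' _ _ n1 ⟨hsymm u2, u1⟩

/-- three edges from a circuit with at least six vertices to a pentagon give a circuit of length
ten -/
theorem Three.ten {Z Z' : List V} {a b : Fin 3 → V} {I : Fin 3 → List V} {p q : Fin 3 → ℕ}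
    (h : Three G Z Z' a b I p q) (hZ : Ci G Z) (hZ' : Ci G Z') (hd : ∀ x ∈ Z, x ∉ Z')
    (hc : ∀ l, Ci G l → l.length ≤ 9) (h6 : 6 ≤ Z.length) (h5' : Z'.length = 5) : False := by
  obtain ⟨i1, j1, n1, u1⟩ := h.pig h5'
  by_cases h7 : Z.length = 6
  · have k0 := idx_lt (h.hp 0)
    have k1 := idx_lt (h.hp 1)
    have k2 := idx_lt (h.hp 2)
    rw [h7] at k0 k1 k2
    have nb : ∀ i j, i ≠ j → ¬ Nb 6 (p i) (p j) := by
      intro i j hij u
      obtain ⟨n, m, a, b, _, _, c, d, e⟩ := h.len hZ hZ' hd hc i j hij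
      rw [h7] at a b
      have := b u
      omega
    rcases pig6 _ k0 _ k1 _ k2 (h.pne 0 1 (by decide)) (h.pne 1 2 (by decide))
      (h.pne 0 2 (by decide)) with w | w | w | ⟨w1, w2, w3⟩
    · exact nb 0 1 (by decide) w
    · exact nb 1 2 (by decide) w
    · exact nb 0 2 (by decide) w
    · have hopp : ¬ (p i1 = p j1 + 3 ∨ p j1 = p i1 + 3) := by
        clear h hc nb
        fin_cases i1 <;> fin_cases j1 <;> simp_all
      obtain ⟨n, m, a, b, c0, _, c, d, e⟩ := h.len hZ hZ' hd hc i1 j1 n1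
      rw [h7] at a b c0
      rw [h5'] at c d
      have := d u1
      have hnb := nb i1 j1 n1
      have l1 := idx_lt (h.hp i1)
      have l2 := idx_lt (h.hp j1)
      rw [h7] at l1 l2
      unfold Cd at c0
      unfold Nb at hnb
      omega
  · obtain ⟨n, m, a, b, c0, _, c, d, e⟩ := h.len hZ hZ' hd hc i1 j1 n1
    rw [h5'] at c d
    have := d u1
    omega

end Pool.Agent.N393.Nine
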